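import Pool.Agent.Lib.MP_72f2f8_co.Main

set_option autoImplicit false

namespace Pool.Agent.Results.MP_72f2f8_co.BasesCircuits
open Pool.Agent.Lib.MP_72f2f8_co

theorem strong {ι : Type} [DecidableEq ι] {V : Type} [AddCommGroup V] [Module (ZMod 2) V]
    {v : ι → V} {E : Finset ι} {r : ℕ} (hr : Rk v E r) (hs : Simp v E)
    (hnc : ∀ x ∈ E, ¬ Colp v E x) :
    ((r : ℚ) + 1) * ((CC v E).card + if 4 ≤ r then 1 else 0) ≤ 2 * nb v E ∅ r := by
  split_ifs with hr4
  · exact (wstd_iff hs r).1 ((main_ind _ V v E r rfl hr).1 hr4 hnc)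
  · have := (rank3_simple (by omega) hs hr hnc).2
    rwa [Qw_one hs, ← add_zero ((CC v E).card : ℚ)] at this

/-- A finite simple binary matroid of rank `r` without coloops has at least `(r + 1) / 2` times as
many bases as circuits; for `r ≥ 4` the number of circuits may be increased by one. -/
theorem result {α : Type} (M : Matroid α) (hfin : M.E.Finite)
    (n : ℕ) (v : α → (Fin n → ZMod 2))
    (hrep : ∀ I ⊆ M.E, M.Indep I ↔ LinearIndepOn (ZMod 2) v I)
    (hsimple : ∀ e ∈ M.E, ∀ f ∈ M.E, M.Indep {e, f})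
    (hcol : ∀ e, ¬ M.IsColoop e) (r : ℕ) (hrank : M.eRank = r) :
    (r + 1) * ({C | M.IsCircuit C}.ncard + if 4 ≤ r then 1 else 0) ≤
      2 * {B | M.IsBase B}.ncard := by
  classical
  obtain ⟨E, hE⟩ : ∃ E : Finset α, M.E = E := ⟨hfin.toFinset, by simp⟩
  have hI : ∀ I : Finset α, I ⊆ E → (M.Indep (I : Set α) ↔ Ind v I) := fun I h =>
    (hrep I (hE ▸ Finset.coe_subset.2 h)).trans (li_iff_ind v I)
  have lift : ∀ X : Set α, X ⊆ M.E → ∃ F : Finset α, F ⊆ E ∧ X = F := fun X h =>
    ⟨(hfin.subset h).toFinset, by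
      intro x hx
      have := h ((hfin.subset h).mem_toFinset.1 hx)
      rwa [hE] at this, by simp⟩
  have hC : ∀ C : Finset α, C ⊆ E → (M.IsCircuit (C : Set α) ↔ Circ v C) := by
    intro C hCE
    have h0 : ∀ x, M.Indep ((C : Set α) \ {x}) ↔ Ind v (C.erase x) := fun x => by
      rw [← Finset.coe_erase, hI _ ((Finset.erase_subset x C).trans hCE)]
    rw [Matroid.isCircuit_iff_dep_forall_sdiff_singleton_indep, Matroid.dep_iff, hI C hCE, hE]
    simp only [h0, Finset.coe_subset, hCE, and_true, Finset.mem_coe]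
    constructor
    · rintro ⟨h1, h2⟩
      unfold Ind at h1
      push Not at h1
      obtain ⟨T, hT, hz, hne⟩ := h1
      have : T = C := by
        by_contra hn
        obtain ⟨x, hx, hxT⟩ := Finset.exists_of_ssubset (ssubset_of_subset_of_ne hT hn)
        exact hne.ne_empty (h2 x hx T (Finset.subset_erase.2 ⟨hT, hxT⟩) hz)
      exact ⟨this ▸ hne, this ▸ hz, h2⟩
    · rintro ⟨h1, h2, h3⟩
      exact ⟨fun h => h.sg_ne_zero h1 h2, h3⟩
  have hcard : ∀ I : Finset α, M.IsBase (I : Set α) → I.card = r := by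
    intro I h
    have := h.encard_eq_eRank
    rw [hrank, Set.encard_coe_eq_coe_finsetCard] at this
    exact_mod_cast this
  have hB' : ∀ I : Finset α, I ⊆ E → (M.IsBase (I : Set α) ↔ Ind v I ∧ I.card = r) := by
    intro I hIE
    refine ⟨fun h => ⟨(hI I hIE).1 h.indep, hcard I h⟩, ?_⟩
    rintro ⟨h1, h2⟩
    obtain ⟨J, hJ, hIJ⟩ := ((hI I hIE).2 h1).exists_isBase_superset
    obtain ⟨J, -, rfl⟩ := lift J hJ.subset_ground
    rw [Finset.eq_of_subset_of_card_le (Finset.coe_subset.1 hIJ) (by rw [hcard J hJ, h2])]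
    exact hJ
  have hr : Rk v E r := by
    obtain ⟨B, hB⟩ := M.exists_isBase
    obtain ⟨B, hBE, rfl⟩ := lift B hB.subset_ground
    refine ⟨B, hBE, (hI B hBE).1 hB.indep, hcard B hB, fun x hx => ?_⟩
    by_contra hn
    obtain ⟨h1, h2⟩ := ind_insert_of ((hI B hBE).1 hB.indep) hn
    have := hB.eq_of_subset_indep ((hI _ (Finset.insert_subset hx hBE)).2 h1)
      (Finset.coe_subset.2 (Finset.subset_insert x B))
    exact h2 (Finset.coe_injective this ▸ Finset.mem_insert_self x B)
  have hs' : Simp v E := by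
    have h1 : ∀ e ∈ E, ∀ f ∈ E, Ind v {e, f} := fun e he f hf =>
      (hI _ (by simp [Finset.insert_subset_iff, he, hf])).1
        (by simpa using hsimple e (hE ▸ he) f (hE ▸ hf))
    exact ⟨fun x hx => (h1 x hx x hx).ne_zero (by simp),
      fun x hx y hy h => (h1 x hx y hy).inj (by simp) (by simp) h⟩
  have hnc : ∀ x ∈ E, ¬ Colp v E x := by
    intro x hx
    obtain ⟨C, h1, h2⟩ := Matroid.exists_mem_isCircuit_of_not_isColoop (hE ▸ hx) (hcol x)
    obtain ⟨C, hCE, rfl⟩ := lift C h1.subset_ground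
    exact (not_colp_iff hx).2 ⟨C, hCE, h2, ((hC C hCE).1 h1).2.1⟩
  have e1 : {C : Set α | M.IsCircuit C} =
      (fun F : Finset α => (F : Set α)) '' (CC v E : Set (Finset α)) := by
    ext X
    constructor
    · intro h
      obtain ⟨F, hF, rfl⟩ := lift X h.subset_ground
      exact ⟨F, mem_CC.2 ⟨hF, (hC F hF).1 h⟩, rfl⟩
    · rintro ⟨F, hF, rfl⟩
      exact (hC F (mem_CC.1 hF).1).2 (mem_CC.1 hF).2
  have e2 : {C : Set α | M.IsBase C} = (fun F : Finset α => (F : Set α)) ''
      ((E.powerset.filter fun I => Ind v I ∧ I.card = r : Finset (Finset α)) :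
        Set (Finset α)) := by
    ext X
    simp only [Set.mem_image, Finset.mem_coe, Finset.mem_filter, Finset.mem_powerset,
      Set.mem_ofPred_eq]
    constructor
    · intro h
      obtain ⟨F, hF, rfl⟩ := lift X h.subset_ground
      exact ⟨F, ⟨hF, (hB' F hF).1 h⟩, rfl⟩
    · rintro ⟨F, hF, rfl⟩
      exact (hB' F hF.1).2 hF.2
  rw [e1, e2, Set.ncard_image_of_injective _ Finset.coe_injective,
    Set.ncard_image_of_injective _ Finset.coe_injective, Set.ncard_coe_finset,
    Set.ncard_coe_finset]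
  have key := strong hr hs' hnc
  rw [nb_eq_card] at key
  split_ifs at key ⊢ <;> exact_mod_cast key

end Pool.Agent.Results.MP_72f2f8_co.BasesCircuits
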